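import Mathlib
import Pool.Agent.Lib.MP_d7cc7c_an.Defs
import Pool.Agent.Lib.MP_d7cc7c_an.Final

/-!
# The commutator type equals the Levi-form type on pseudoconvex hypersurfaces

Let `M` be a smooth pseudoconvex real hypersurface of `ℂⁿ`, let `1 ≤ s`, and let `B` be a smooth
complex subbundle of rank `s` of the bundle of `(1,0)` vectors tangent to `M`.  At every point `p`
of `M` the commutator type of `B` at `p` equals the Levi-form type of `B` at `p`, both being
possibly infinite; moreover a number `m` satisfies the condition in the definition of the
Levi-form type if and only if the commutator type is `m`, so that the definition of the Levi-form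
type is unambiguous.
-/

namespace Pool.Agent.Results.MP_d7cc7c_an.TypesEqual

open Pool.Agent.Lib.MP_d7cc7c_an

/-- On a smooth pseudoconvex real hypersurface `M` of `ℂⁿ` the commutator type and the Levi-form
type of every smooth complex subbundle `B` of rank `s ≥ 1` of `T^{1,0} M` are equal at every
point. -/
theorem result (n s : ℕ) (H : Hyp n) (hpsc : H.Pseudoconvex) (hs : 1 ≤ s)
    (B : (Fin n → ℂ) → Submodule ℂ (Fin n → ℂ)) (hB : H.IsSubbundle s B)
    (p : Fin n → ℂ) (hp : p ∈ H.M) :
    H.commType B p = H.leviType B p ∧
      ∀ m : ℕ, H.IsLeviType B p m ↔ H.commType B p = m :=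
  main H hpsc hs hB hp

end Pool.Agent.Results.MP_d7cc7c_an.TypesEqual
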